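import Pool.Agent.H73.RM1

set_option autoImplicit false

namespace Pool.Agent.Results.MP_af3a77_al.Actions

/-- The number of orbits of the action `ψ` of `H` that contain a point with stabiliser exactly
`L`, that is, the multiplicity of the transitive action `H ⧸ L` in `ψ`. -/
noncomputable def mult {H X : Type} [Group H] (ψ : H →* Equiv.Perm X) (L : Subgroup H) : ℕ :=
  Set.ncard {ω : Set X | ∃ x, ω = Set.range (fun h => ψ h x) ∧ ∀ h, h ∈ L ↔ ψ h x = x}

/-- The multiplicity vectors of the restrictions to `H` of the actions of `G` on finite sets. -/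
def resActs (G : Type) [Group G] (H : Subgroup G) : Set (Subgroup H → ℕ) :=
  {v | ∃ (X : Type) (_ : Finite X) (ψ : G →* Equiv.Perm X), v = mult (ψ.comp H.subtype)}

open H73.RM H73.IAS in
theorem result : ∃ (G : Type) (_ : Group G) (H : Subgroup G), Group.FG G ∧ Finite H ∧
    ∀ T : Set (Subgroup H → ℕ), T.Finite → T ⊆ resActs G H →
      ¬ resActs G H ⊆ (AddSubmonoid.closure T : Set (Subgroup H → ℕ)) := by
  classical
  obtain ⟨E, E0, E1, E2⟩ := exE
  obtain ⟨hP, _⟩ := alt5
  set S := alternatingGroup (Fin 5)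
  obtain ⟨s0, hs0⟩ := exists_ne (1 : S)
  have hfin : Finite (hG (S := S) E).range :=
    Finite.of_surjective _ (hG (S := S) E).rangeRestrict_surjective
  refine ⟨GG S E, inferInstance, (hG E).range, inferInstance, hfin, fun T hT h1 h2 => ?_⟩
  have := Fintype.ofFinite (Subgroup (hG (S := S) E).range)
  set K := ((hG (S := S) E).rangeRestrict.comp (MonoidHom.inl S S)).range with hK
  have hst : ∀ p, ∀ z ∈ E p, ∀ h : (hG (S := S) E).range,
      h ∈ K ↔ rho p h.1.1 (z, 1) = (z, 1) := by
    intro p z hz h
    have : z ≠ 0 := by rintro rfl; exact E0 p hz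
    constructor
    · rintro ⟨s, rfl⟩
      simp [rho_h, this]
    · obtain ⟨_, ⟨s, t⟩, rfl⟩ := h
      intro e
      simp only [rho_h, this, hz, if_true, if_false, mul_one, Prod.mk.injEq, true_and] at e
      exact ⟨s, by subst e; rfl⟩
  obtain ⟨C, hC0, hC⟩ := bound (V := Subgroup (hG (S := S) E).range → ℕ)
    ⟨⟨fun v => ∑ L with ¬ K ≤ L, (v L : ℝ), by simp⟩, fun a b => by
      simp [Finset.sum_add_distrib]⟩
    ⟨⟨fun v => v K, by simp⟩, fun a b => by simp⟩ hT
    (fun v _ => Finset.sum_nonneg fun _ _ => Nat.cast_nonneg _)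
    (fun v hv h => by
      obtain ⟨X, _, ψ, rfl⟩ := h1 hv
      have h := (Finset.sum_eq_zero_iff_of_nonneg (fun _ _ => Nat.cast_nonneg _)).mp h
      have k := trivFin E1 hP ψ (fun s => by
        ext x
        by_contra c
        have := h ((MulAction.stabilizer (Equiv.Perm X) x).comap 
          (ψ.comp (hG (S := S) E).range.subtype)) (by
          simp only [Finset.mem_filter, Finset.mem_univ, true_and]
          exact fun e => c (e ⟨s, rfl⟩))
        rw [Nat.cast_eq_zero, mult, Set.ncard_eq_zero (Set.toFinite _),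
          Set.eq_empty_iff_forall_notMem] at this
        exact this _ ⟨x, rfl, fun _ => Iff.rfl⟩) s0
      show ((mult _ K : ℕ) : ℝ) = 0
      rw [Nat.cast_eq_zero, mult, Set.ncard_eq_zero (Set.toFinite _),
        Set.eq_empty_iff_forall_notMem]
      rintro _ ⟨x, -, hx⟩
      have := (hx ((hG E).rangeRestrict (1, s0))).mpr (by
        show ψ (hG E (1, s0)) x = x
        rw [k]; rfl)
      obtain ⟨p, hp⟩ := E2 1
      obtain ⟨z, hz⟩ := (Set.ncard_pos (Set.toFinite _)).mp hp
      have := (hst p z hz _).mp this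
      have hz0 : z ≠ 0 := by rintro rfl; exact E0 p hz
      simp [rho_h, hz0, hz, hs0] at this)
  obtain ⟨m, hm⟩ := exists_nat_gt (C * (Fintype.card (Subgroup (hG (S := S) E).range) * Nat.card S))
  obtain ⟨p, hp⟩ := E2 m
  have := hC _ (h2 ⟨ZMod p.1 × S, inferInstance, (rho p).comp (GG S E).subtype, rfl⟩)
  simp only [AddMonoidHom.coe_mk, ZeroHom.coe_mk] at this
  have k1 : ∀ L, ¬ K ≤ L → (mult (((rho p).comp (GG S E).subtype).comp (hG (S := S) E).range.subtype) L : ℝ)
      ≤ Nat.card S := fun L hL => by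
    have := (Set.ncard_le_ncard (s := {ω | ∃ x, ω = Set.range (fun h =>
      (((rho p).comp (GG S E).subtype).comp (hG (S := S) E).range.subtype) h x) ∧ ∀ h, h ∈ L ↔
      (((rho p).comp (GG S E).subtype).comp (hG (S := S) E).range.subtype) h x = x}) (by
      rintro _ ⟨⟨z, t⟩, rfl, hx⟩
      refine ⟨t, trivial, ?_⟩
      have : z = 0 := by
        by_contra c
        apply hL
        rintro _ ⟨s, rfl⟩
        rw [hx]
        simp [rho_h, c]
      rw [this])).trans (Set.ncard_image_le (f := fun t : S => Set.range (fun h =>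
      (((rho p).comp (GG S E).subtype).comp (hG (S := S) E).range.subtype) h (0, t))) (Set.toFinite Set.univ))
    rw [Set.ncard_univ] at this
    exact_mod_cast this
  have k2 : (m : ℝ) ≤ mult (((rho p).comp (GG S E).subtype).comp (hG (S := S) E).range.subtype) K := by
    have := Set.ncard_le_ncard_of_injOn (s := E p) (t := {ω | ∃ x, ω = Set.range (fun h =>
      (((rho p).comp (GG S E).subtype).comp (hG (S := S) E).range.subtype) h x) ∧ ∀ h, h ∈ K ↔
      (((rho p).comp (GG S E).subtype).comp (hG (S := S) E).range.subtype) h x = x})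
      (fun z => Set.range (fun h =>
        (((rho p).comp (GG S E).subtype).comp (hG (S := S) E).range.subtype) h (z, 1)))
      (fun z hz => ⟨(z, 1), rfl, hst p z hz⟩) (fun z _ z' _ e => by
        have : (z, (1 : S)) ∈ Set.range (fun h =>
          (((rho p).comp (GG S E).subtype).comp (hG (S := S) E).range.subtype) h (z, 1)) := ⟨1, by simp⟩
        simp only at e
        rw [e] at this
        obtain ⟨⟨_, s, rfl⟩, hs⟩ := this
        have : rho p (hG E s).1 (z', 1) = (z, 1) := hs
        rw [rho_h] at this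
        exact (Prod.mk.inj this).1.symm)
    exact_mod_cast hp.trans this
  have k3 := Finset.sum_le_card_nsmul (Finset.univ.filter fun L => ¬ K ≤ L) _ _
    fun L hL => k1 L (Finset.mem_filter.mp hL).2
  rw [nsmul_eq_mul] at k3
  have k4 : ((Finset.univ.filter fun L => ¬ K ≤ L).card : ℝ) ≤
      Fintype.card (Subgroup (hG (S := S) E).range) := by
    exact_mod_cast Finset.card_le_univ _
  have k5 := mul_le_mul_of_nonneg_right k4 (Nat.cast_nonneg (α := ℝ) (Nat.card S))
  have := mul_le_mul_of_nonneg_left (k3.trans k5) hC0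
  linarith

end Pool.Agent.Results.MP_af3a77_al.Actions
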