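import Pool.Agent.H73.RM1

set_option autoImplicit false

namespace Pool.Agent.Results.MP_af3a77_al.Reps

/-- The characters of the restrictions to `H` of the finite-dimensional unitary representations
of `G`. -/
def resChars (G : Type) [Group G] (H : Subgroup G) : Set (H → ℂ) :=
  {χ | ∃ (X : Type) (_ : Fintype X) (_ : DecidableEq X) (ψ : G →* Matrix.unitaryGroup X ℂ),
    χ = fun h : H => Matrix.trace (ψ h : Matrix X X ℂ)}

open H73.RM H73.IAS in
theorem result : ∃ (G : Type) (_ : Group G) (H : Subgroup G), Group.FG G ∧ Finite H ∧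
    ∀ T : Set (H → ℂ), T.Finite → T ⊆ resChars G H →
      ¬ resChars G H ⊆ (AddSubmonoid.closure T : Set (H → ℂ)) := by
  obtain ⟨E, E0, E1, E2⟩ := exE
  obtain ⟨hP, _⟩ := alt5
  set S := alternatingGroup (Fin 5)
  obtain ⟨s0, hs0⟩ := exists_ne (1 : S)
  refine ⟨GG S E, inferInstance, (hG E).range, inferInstance,
    Finite.of_surjective _ (hG (S := S) E).rangeRestrict_surjective, fun T hT h1 h2 => ?_⟩
  obtain ⟨C, hC0, hC⟩ := bound (V := (hG (S := S) E).range → ℂ)
    ⟨⟨fun χ => ∑ s : S, (χ 1 - χ ((hG E).rangeRestrict (s, 1))).re, by simp⟩, fun a b => by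
      dsimp only
      rw [← Finset.sum_add_distrib]
      refine Finset.sum_congr rfl fun s _ => ?_
      simp only [Pi.add_apply, Complex.sub_re, Complex.add_re]; ring⟩
    ⟨⟨fun χ => (χ 1 - χ ((hG E).rangeRestrict (1, s0))).re, by simp⟩, fun a b => by
      simp only [Pi.add_apply, Complex.sub_re, Complex.add_re]; ring⟩ hT
    (fun v hv => by
      obtain ⟨X, _, _, ψ, rfl⟩ := h1 hv
      simp only [AddMonoidHom.coe_mk, ZeroHom.coe_mk]
      refine Finset.sum_nonneg fun s _ => ?_
      simpa using (unit (ψ (hG E (s, 1)))).1)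
    (fun v hv h => by
      obtain ⟨X, _, _, ψ, rfl⟩ := h1 hv
      simp only [AddMonoidHom.coe_mk, ZeroHom.coe_mk] at h
      rw [Finset.sum_eq_zero_iff_of_nonneg (fun s _ => by
        simpa using (unit (ψ (hG E (s, 1)))).1)] at h
      have := trivAlg E1 hP ((Matrix.unitaryGroup X ℂ).subtype.comp ψ) (fun s =>
        (unit (ψ (hG E (s, 1)))).2 (by simpa using h s (Finset.mem_univ s))) s0
      have : (ψ (hG E (1, s0))).1 = 1 := this
      simp [this])
  obtain ⟨m, hm⟩ := exists_nat_gt (C * (Nat.card S * Nat.card S))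
  obtain ⟨p, hp⟩ := E2 m
  have := hC _ (h2 ⟨ZMod p.1 × S, inferInstance, inferInstance,
    (uP _).comp ((rho p).comp (GG S E).subtype), rfl⟩)
  have k : ∀ s : S × S, ((((uP _).comp ((rho p).comp (GG S E).subtype))
      ((1 : (hG (S := S) E).range) : GG S E)).1.trace - (((uP _).comp ((rho p).comp
      (GG S E).subtype)) ((hG E).rangeRestrict s : GG S E)).1.trace).re =
      ({x | rho p (hG E s).1 x ≠ x}.ncard : ℝ) := fun s => by
    rw [← uP_tr, OneMemClass.coe_one, map_one]; rfl
  simp only [AddMonoidHom.coe_mk, ZeroHom.coe_mk, k] at this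
  have k1 : ∀ s : S, ({x | rho p (hG E (s, 1)).1 x ≠ x}.ncard : ℝ) ≤ Nat.card S := fun s => by
    have : {x | rho p (hG E (s, 1)).1 x ≠ x} ⊆ (fun t => (0, t)) '' Set.univ := by
      rintro ⟨z, t⟩ hx
      refine ⟨t, trivial, ?_⟩
      by_contra c
      apply hx
      have : z ≠ 0 := by rintro rfl; exact c rfl
      simp [rho_h, this]
    have := (Set.ncard_le_ncard this).trans (Set.ncard_image_le (Set.toFinite _))
    rw [Set.ncard_univ] at this
    exact_mod_cast this
  have k2 : (m : ℝ) ≤ {x | rho p (hG E (1, s0)).1 x ≠ x}.ncard := by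
    have : (fun z => (z, (1 : S))) '' E p ⊆ {x | rho p (hG E (1, s0)).1 x ≠ x} := by
      rintro _ ⟨z, hz, rfl⟩
      have : z ≠ 0 := by rintro rfl; exact E0 p hz
      simp [rho_h, this, hz, hs0]
    have := Set.ncard_le_ncard this
    rw [Set.ncard_image_of_injective _ (fun a b h => (Prod.mk.inj h).1)] at this
    exact_mod_cast hp.trans this
  have k3 := Finset.sum_le_sum fun s (_ : s ∈ Finset.univ) => k1 s
  rw [Finset.sum_const, Finset.card_univ, ← Nat.card_eq_fintype_card, nsmul_eq_mul] at k3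
  have := mul_le_mul_of_nonneg_left k3 hC0
  linarith

end Pool.Agent.Results.MP_af3a77_al.Reps
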